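import Mathlib

set_option autoImplicit false

/-!
Lower bound for the relative clique number of planar (n,m)-graphs, in the form of S07469:
a hub below the parabola, p classes of 3p+1 points on the parabola, straight segments.
-/

namespace Pool.RCQ.Low

abbrev Lab (n m : ℕ) : Type := Fin n × Bool ⊕ Fin m

def fl (n m : ℕ) : Lab n m → Lab n m :=
  Sum.elim (fun a : Fin n × Bool => (Sum.inl (a.1, !a.2) : Fin n × Bool ⊕ Fin m))
    (fun j : Fin m => (Sum.inr j : Fin n × Bool ⊕ Fin m))

theorem fl_fl (n m : ℕ) (a : Lab n m) : fl n m (fl n m a) = a := by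
  rcases a with ⟨a, b⟩ | j
  · simp [fl]
  · simp [fl]

/-- straight path -/
def seg (a b : ℝ × ℝ) : Path a b where
  toFun t := ((1 - (t : ℝ)) * a.1 + (t : ℝ) * b.1, (1 - (t : ℝ)) * a.2 + (t : ℝ) * b.2)
  continuous_toFun := by fun_prop
  source' := by simp
  target' := by simp

theorem seg_apply (a b : ℝ × ℝ) (t : unitInterval) :
    seg a b t = ((1 - (t : ℝ)) * a.1 + (t : ℝ) * b.1, (1 - (t : ℝ)) * a.2 + (t : ℝ) * b.2) := rfl

theorem seg_inj (a b : ℝ × ℝ) (h : a ≠ b) : Function.Injective (seg a b) := by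
  intro s t hst
  rw [seg_apply, seg_apply, Prod.mk.injEq] at hst
  obtain ⟨h1, h2⟩ := hst
  apply Subtype.ext
  by_contra hne
  have hd : (s : ℝ) - t ≠ 0 := sub_ne_zero.mpr hne
  apply h
  have e1 : ((s : ℝ) - t) * (b.1 - a.1) = 0 := by linear_combination h1
  have e2 : ((s : ℝ) - t) * (b.2 - a.2) = 0 := by linear_combination h2
  rcases mul_eq_zero.mp e1 with h3 | h3
  · exact absurd h3 hd
  rcases mul_eq_zero.mp e2 with h4 | h4
  · exact absurd h4 hd
  exact Prod.ext (by linarith) (by linarith)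

/-- points of the open segment -/
def Op (a b z : ℝ × ℝ) : Prop :=
  ∃ s : ℝ, 0 < s ∧ s < 1 ∧ z = ((1 - s) * a.1 + s * b.1, (1 - s) * a.2 + s * b.2)
/-- points of the closed segment -/
def Cl (a b z : ℝ × ℝ) : Prop :=
  ∃ s : ℝ, 0 ≤ s ∧ s ≤ 1 ∧ z = ((1 - s) * a.1 + s * b.1, (1 - s) * a.2 + s * b.2)

theorem Op.symm {a b z : ℝ × ℝ} (h : Op a b z) : Op b a z := by
  obtain ⟨s, h0, h1, rfl⟩ := h
  exact ⟨1 - s, by linarith, by linarith, by ext <;> simp <;> ring⟩
theorem Cl.symm {a b z : ℝ × ℝ} (h : Cl a b z) : Cl b a z := by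
  obtain ⟨s, h0, h1, rfl⟩ := h
  exact ⟨1 - s, by linarith, by linarith, by ext <;> simp <;> ring⟩
theorem Op.cl {a b z : ℝ × ℝ} (h : Op a b z) : Cl a b z := by
  obtain ⟨s, h0, h1, rfl⟩ := h
  exact ⟨s, h0.le, h1.le, rfl⟩

/-- the point of the parabola -/
def par (t : ℝ) : ℝ × ℝ := (t, t ^ 2)
/-- the hub -/
def hub (C : ℝ) : ℝ × ℝ := (0, -C)

theorem chord_cl {a b : ℝ} {z : ℝ × ℝ} (hab : a < b) (h : Cl (par a) (par b) z) :
    a ≤ z.1 ∧ z.1 ≤ b ∧ z.2 - z.1 ^ 2 = (z.1 - a) * (b - z.1) := by
  obtain ⟨s, h0, h1, rfl⟩ := h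
  simp only [par]
  refine ⟨by nlinarith, by nlinarith, by ring⟩
theorem chord_op {a b : ℝ} {z : ℝ × ℝ} (hab : a < b) (h : Op (par a) (par b) z) :
    a < z.1 ∧ z.1 < b ∧ z.2 - z.1 ^ 2 = (z.1 - a) * (b - z.1) := by
  obtain ⟨s, h0, h1, rfl⟩ := h
  simp only [par]
  refine ⟨by nlinarith, by nlinarith, by ring⟩
theorem hub_cl {C t : ℝ} {z : ℝ × ℝ} (hC : t ^ 2 < C) (h : Cl (hub C) (par t) z) :
    z.2 ≤ z.1 ^ 2 := by
  obtain ⟨s, h0, h1, rfl⟩ := h
  simp only [par, hub]
  have : 0 ≤ (1 - s) * (C - s * t ^ 2) := by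
    apply mul_nonneg (by linarith)
    nlinarith [sq_nonneg t]
  nlinarith
theorem hub_op {C t : ℝ} {z : ℝ × ℝ} (hC : t ^ 2 < C) (h : Op (hub C) (par t) z) :
    z.2 < z.1 ^ 2 ∧ -C < z.2 := by
  obtain ⟨s, h0, h1, rfl⟩ := h
  simp only [par, hub]
  have : 0 < (1 - s) * (C - s * t ^ 2) := by
    apply mul_pos (by linarith)
    nlinarith [sq_nonneg t]
  constructor
  · nlinarith
  · nlinarith [sq_nonneg t, mul_pos h0 (show (0:ℝ) < t ^ 2 + C by nlinarith [sq_nonneg t])]

theorem hub_hub {C t t' : ℝ} {z : ℝ × ℝ} (hC : t ^ 2 < C) (hC' : t' ^ 2 < C) (hne : t ≠ t')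
    (h : Op (hub C) (par t) z) (h' : Cl (hub C) (par t') z) : False := by
  obtain ⟨s, h0, h1, rfl⟩ := h
  obtain ⟨s', h0', h1', h2⟩ := h'
  simp only [par, hub, Prod.mk.injEq] at h2
  obtain ⟨e1, e2⟩ := h2
  have e1' : s * t = s' * t' := by linarith
  have e2' : s * (t ^ 2 + C) = s' * (t' ^ 2 + C) := by linarith
  have e3 : (s - s') * (C - t * t') = 0 := by
    have h3 : s * t ^ 2 = s' * (t * t') := by
      calc s * t ^ 2 = (s * t) * t := by ring
        _ = (s' * t') * t := by rw [e1']
        _ = s' * (t * t') := by ring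
    have h4 : s' * t' ^ 2 = s * (t * t') := by
      calc s' * t' ^ 2 = (s' * t') * t' := by ring
        _ = (s * t) * t' := by rw [e1']
        _ = s * (t * t') := by ring
    nlinarith
  rcases mul_eq_zero.mp e3 with h5 | h5
  · have : s = s' := by linarith
    subst this
    exact hne (mul_left_cancel₀ h0.ne' e1')
  · nlinarith [sq_nonneg (t - t')]

theorem chord_chord {a b c d : ℝ} {z : ℝ × ℝ} (hab : a < b) (hcd : c < d)
    (hnc : b ≤ c ∨ d ≤ a ∨ (a ≤ c ∧ d ≤ b) ∨ (c ≤ a ∧ b ≤ d)) (hne : ¬ (a = c ∧ b = d))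
    (h : Op (par a) (par b) z) (h' : Cl (par c) (par d) z) : False := by
  obtain ⟨h1, h2, h3⟩ := chord_op hab h
  obtain ⟨h4, h5, h6⟩ := chord_cl hcd h'
  have e : (z.1 - a) * (b - z.1) = (z.1 - c) * (d - z.1) := by rw [← h3, h6]
  rcases hnc with h7 | h7 | ⟨h7, h8⟩ | ⟨h7, h8⟩
  · linarith
  · linarith
  · have e' : (c - a) * (b - z.1) + (z.1 - c) * (b - d) = 0 := by linear_combination e
    rcases h7.lt_or_eq with h9 | h9
    · have := mul_pos (sub_pos.mpr h9) (sub_pos.mpr h2)
      have := mul_nonneg (sub_nonneg.mpr h4) (sub_nonneg.mpr h8)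
      linarith
    · rcases h8.lt_or_eq with h10 | h10
      · subst h9
        have := mul_pos (sub_pos.mpr h1) (sub_pos.mpr h10)
        nlinarith
      · exact hne ⟨h9, h10.symm⟩
  · have e' : (a - c) * (d - z.1) + (z.1 - a) * (d - b) = 0 := by linear_combination -e
    rcases h7.lt_or_eq with h9 | h9
    · have := mul_pos (sub_pos.mpr h9) (show 0 < d - z.1 by linarith)
      have := mul_nonneg (sub_nonneg.mpr h1.le) (sub_nonneg.mpr h8)
      linarith
    · rcases h8.lt_or_eq with h10 | h10
      · subst h9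
        have := mul_pos (sub_pos.mpr h1) (sub_pos.mpr h10)
        nlinarith
      · exact hne ⟨h9.symm, h10⟩

/-! ### the graph -/

abbrev Vt (p : ℕ) : Type := Option (Fin p × Option (Fin p × Fin 3))

def dir {n m p : ℕ} (e : Fin p → Lab n m) (e0 e1 : Lab n m) : Vt p → Vt p → Option (Lab n m)
  | none, some (k, _) => some (e k)
  | some (k, none), some (k', some (j, _)) => if k = k' then some (e j) else none
  | some (k, some (j, i)), some (k', some (j', i')) =>
      if k = k' ∧ j = j' ∧ i = 1 ∧ i' ≠ 1 then (if i' = 0 then some e0 else some e1) else none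
  | _, _ => none

def col {n m p : ℕ} (e : Fin p → Lab n m) (e0 e1 : Lab n m) (u v : Vt p) : Option (Lab n m) :=
  match dir e e0 e1 u v with
  | some t => some t
  | none => (dir e e0 e1 v u).map (fl n m)

def pos {p : ℕ} : Fin p × Option (Fin p × Fin 3) → ℕ
  | (k, none) => k.1 * (3 * p + 1)
  | (k, some (j, i)) => k.1 * (3 * p + 1) + 1 + 3 * j.1 + i.1

def Pt {p : ℕ} : Vt p → ℝ × ℝ
  | none => hub (((p * (3 * p + 1) : ℕ) : ℝ) ^ 2)
  | some x => par (pos x)

theorem pos_mem {p : ℕ} (x : Fin p × Option (Fin p × Fin 3)) :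
    x.1.1 * (3 * p + 1) ≤ pos x ∧ pos x < x.1.1 * (3 * p + 1) + (3 * p + 1) := by
  obtain ⟨k, o⟩ := x
  rcases o with _ | ⟨j, i⟩
  · simp [pos]
  · have := j.2
    have := i.2
    simp only [pos]
    constructor <;> omega

theorem class_sep {q k k' a b : ℕ} (h : k < k') (ha : a < k * q + q) (hb : k' * q ≤ b) : a < b := by
  have : (k + 1) * q ≤ k' * q := Nat.mul_le_mul_right q h
  have : (k + 1) * q = k * q + q := by ring
  omega

theorem pos_inj {p : ℕ} : Function.Injective (pos (p := p)) := by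
  intro x y h
  have hx := pos_mem x
  have hy := pos_mem y
  have hk : x.1 = y.1 := by
    rcases lt_trichotomy x.1.1 y.1.1 with h1 | h1 | h1
    · have := class_sep h1 hx.2 hy.1; omega
    · exact Fin.ext h1
    · have := class_sep h1 hy.2 hx.1; omega
  obtain ⟨k, o⟩ := x
  obtain ⟨k', o'⟩ := y
  simp only at hk
  subst hk
  rcases o with _ | ⟨j, i⟩ <;> rcases o' with _ | ⟨j', i'⟩
  · rfl
  · simp only [pos] at h; omega
  · simp only [pos] at h; omega
  · simp only [pos] at h
    have := i.2
    have := i'.2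
    have hj : j = j' := Fin.ext (by omega)
    have hi : i = i' := Fin.ext (by omega)
    rw [hj, hi]

theorem pos_lt {p : ℕ} (x : Fin p × Option (Fin p × Fin 3)) : pos x < p * (3 * p + 1) := by
  have h1 := (pos_mem x).2
  have h2 : (x.1.1 + 1) * (3 * p + 1) ≤ p * (3 * p + 1) := Nat.mul_le_mul_right _ x.1.2
  have h3 : (x.1.1 + 1) * (3 * p + 1) = x.1.1 * (3 * p + 1) + (3 * p + 1) := by ring
  omega

theorem pos_sq {p : ℕ} (x : Fin p × Option (Fin p × Fin 3)) :
    ((pos x : ℕ) : ℝ) ^ 2 < ((p * (3 * p + 1) : ℕ) : ℝ) ^ 2 := by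
  have h : ((pos x : ℕ) : ℝ) < ((p * (3 * p + 1) : ℕ) : ℝ) := by exact_mod_cast pos_lt x
  have h0 : (0 : ℝ) ≤ ((pos x : ℕ) : ℝ) := Nat.cast_nonneg _
  nlinarith

theorem Pt_inj {p : ℕ} : Function.Injective (Pt (p := p)) := by
  intro u v h
  rcases u with _ | x <;> rcases v with _ | y
  · rfl
  · exfalso
    simp only [Pt, hub, par, Prod.mk.injEq] at h
    have := pos_sq y
    have := sq_nonneg ((pos y : ℕ) : ℝ)
    nlinarith [h.2]
  · exfalso
    simp only [Pt, hub, par, Prod.mk.injEq] at h
    have := pos_sq x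
    have := sq_nonneg ((pos x : ℕ) : ℝ)
    nlinarith [h.2]
  · simp only [Pt, par, Prod.mk.injEq, Nat.cast_inj] at h
    rw [pos_inj h.1]

/-- the non-hub arcs, as intervals -/
theorem dir_some {n m p : ℕ} {e : Fin p → Lab n m} {e0 e1 : Lab n m}
    {x y : Fin p × Option (Fin p × Fin 3)} (h : dir e e0 e1 (some x) (some y) ≠ none) :
    x.1 = y.1 ∧ ((pos x = x.1.1 * (3 * p + 1) ∧ pos x < pos y) ∨ pos y + 1 = pos x ∨ pos y = pos x + 1) := by
  obtain ⟨k, o⟩ := x
  obtain ⟨k', o'⟩ := y
  rcases o with _ | ⟨j, i⟩ <;> rcases o' with _ | ⟨j', i'⟩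
  · simp [dir] at h
  · simp only [dir, ne_eq, ite_eq_right_iff, reduceCtorEq, imp_false, not_not] at h
    subst h
    refine ⟨rfl, Or.inl ⟨by simp [pos], by simp only [pos]; omega⟩⟩
  · simp [dir] at h
  · by_cases hc : k = k' ∧ j = j' ∧ i = 1 ∧ i' ≠ 1
    · obtain ⟨rfl, rfl, rfl, hi⟩ := hc
      refine ⟨rfl, Or.inr ?_⟩
      simp only [pos]
      have : i' = 0 ∨ i' = 2 := by
        revert hi; fin_cases i' <;> simp
      rcases this with rfl | rfl
      · left; simp
      · right; simp
    · simp [dir, hc] at h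

theorem cross_nat {q k k' a b c d : ℕ}
    (ha : k * q ≤ a) (hb : b < k * q + q) (hab : a < b)
    (hc : k' * q ≤ c) (hd : d < k' * q + q) (hcd : c < d)
    (h : a = k * q ∨ b = a + 1) (h' : c = k' * q ∨ d = c + 1) :
    b ≤ c ∨ d ≤ a ∨ (a ≤ c ∧ d ≤ b) ∨ (c ≤ a ∧ b ≤ d) := by
  rcases lt_trichotomy k k' with hk | hk | hk
  · left
    exact (class_sep hk hb hc).le
  · subst hk
    omega
  · right; left
    exact (class_sep hk hd ha).le

/-- interval description of a non-hub arc -/
theorem dir_int {n m p : ℕ} {e : Fin p → Lab n m} {e0 e1 : Lab n m}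
    {x y : Fin p × Option (Fin p × Fin 3)} (h : dir e e0 e1 (some x) (some y) ≠ none) :
    ∃ a b : ℕ, a < b ∧ x.1.1 * (3 * p + 1) ≤ a ∧ b < x.1.1 * (3 * p + 1) + (3 * p + 1) ∧
      (a = x.1.1 * (3 * p + 1) ∨ b = a + 1) ∧
      ((pos x = a ∧ pos y = b) ∨ (pos x = b ∧ pos y = a)) := by
  obtain ⟨h1, h2⟩ := dir_some h
  have hx := pos_mem x
  have hy := pos_mem y
  rw [← h1] at hy
  rcases h2 with ⟨h3, h4⟩ | h3 | h3
  · exact ⟨pos x, pos y, h4, hx.1, hy.2, Or.inl h3, Or.inl ⟨rfl, rfl⟩⟩
  · exact ⟨pos y, pos x, by omega, hy.1, hx.2, Or.inr h3.symm, Or.inr ⟨rfl, rfl⟩⟩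
  · exact ⟨pos x, pos y, by omega, hx.1, hy.2, Or.inr h3, Or.inl ⟨rfl, rfl⟩⟩

/-- two different arcs (oriented) do not meet -/
theorem arc_arc {n m p : ℕ} {e : Fin p → Lab n m} {e0 e1 : Lab n m} {u v x y : Vt p}
    (h : dir e e0 e1 u v ≠ none) (h' : dir e e0 e1 x y ≠ none) (hne : ¬ (x = u ∧ y = v))
    (hne' : ¬ (x = v ∧ y = u))
    {z : ℝ × ℝ} (hz : Op (Pt u) (Pt v) z) (hz' : Cl (Pt x) (Pt y) z) : False := by
  rcases v with _ | v
  · simp [dir] at h
  rcases y with _ | y
  · simp [dir] at h'
  rcases u with _ | u <;> rcases x with _ | x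
  · -- hub, hub
    simp only [Pt] at hz hz'
    refine hub_hub (pos_sq v) (pos_sq y) ?_ hz hz'
    intro hvy
    exact hne ⟨rfl, by rw [pos_inj (by exact_mod_cast hvy : pos v = pos y)]⟩
  · -- hub, chord
    simp only [Pt] at hz hz'
    have h1 := (hub_op (pos_sq v) hz).1
    obtain ⟨a, b, hab, -, -, -, hor⟩ := dir_int h'
    have hab' : (a : ℝ) < b := by exact_mod_cast hab
    have hcl : Cl (par a) (par b) z := by
      rcases hor with ⟨e1, e2⟩ | ⟨e1, e2⟩
      · rw [e1, e2] at hz'; exact hz'
      · rw [e1, e2] at hz'; exact hz'.symm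
    obtain ⟨h2, h3, h4⟩ := chord_cl hab' hcl
    have := mul_nonneg (sub_nonneg.mpr h2) (sub_nonneg.mpr h3)
    linarith
  · -- chord, hub
    simp only [Pt] at hz hz'
    have h1 := hub_cl (pos_sq y) hz'
    obtain ⟨a, b, hab, -, -, -, hor⟩ := dir_int h
    have hab' : (a : ℝ) < b := by exact_mod_cast hab
    have hop : Op (par a) (par b) z := by
      rcases hor with ⟨e1, e2⟩ | ⟨e1, e2⟩
      · rw [e1, e2] at hz; exact hz
      · rw [e1, e2] at hz; exact hz.symm
    obtain ⟨h2, h3, h4⟩ := chord_op hab' hop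
    have := mul_pos (sub_pos.mpr h2) (sub_pos.mpr h3)
    linarith
  · -- chord, chord
    simp only [Pt] at hz hz'
    obtain ⟨a, b, hab, ha1, hb1, hc1, hor⟩ := dir_int h
    obtain ⟨c, d, hcd, ha2, hb2, hc2, hor'⟩ := dir_int h'
    have hab' : (a : ℝ) < b := by exact_mod_cast hab
    have hcd' : (c : ℝ) < d := by exact_mod_cast hcd
    have hop : Op (par a) (par b) z := by
      rcases hor with ⟨e1, e2⟩ | ⟨e1, e2⟩
      · rw [e1, e2] at hz; exact hz
      · rw [e1, e2] at hz; exact hz.symm
    have hcl : Cl (par c) (par d) z := by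
      rcases hor' with ⟨e1, e2⟩ | ⟨e1, e2⟩
      · rw [e1, e2] at hz'; exact hz'
      · rw [e1, e2] at hz'; exact hz'.symm
    have hnc := cross_nat ha1 hb1 hab ha2 hb2 hcd hc1 hc2
    refine chord_chord hab' hcd' (by exact_mod_cast hnc) ?_ hop hcl
    rintro ⟨e1, e2⟩
    have e1 : a = c := by exact_mod_cast e1
    have e2 : b = d := by exact_mod_cast e2
    subst e1 e2
    rcases hor with ⟨f1, f2⟩ | ⟨f1, f2⟩ <;> rcases hor' with ⟨f3, f4⟩ | ⟨f3, f4⟩
    · exact hne ⟨by rw [pos_inj (f3.trans f1.symm)], by rw [pos_inj (f4.trans f2.symm)]⟩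
    · exact hne' ⟨by rw [pos_inj (f3.trans f2.symm)], by rw [pos_inj (f4.trans f1.symm)]⟩
    · exact hne' ⟨by rw [pos_inj (f3.trans f2.symm)], by rw [pos_inj (f4.trans f1.symm)]⟩
    · exact hne ⟨by rw [pos_inj (f3.trans f1.symm)], by rw [pos_inj (f4.trans f2.symm)]⟩

/-- the interior of an arc avoids the vertices -/
theorem arc_pt {n m p : ℕ} {e : Fin p → Lab n m} {e0 e1 : Lab n m} {u v w : Vt p}
    (h : dir e e0 e1 u v ≠ none) (hz : Op (Pt u) (Pt v) (Pt w)) : False := by
  rcases v with _ | v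
  · simp [dir] at h
  rcases u with _ | u
  · simp only [Pt] at hz
    have h1 := hub_op (pos_sq v) hz
    rcases w with _ | w
    · simp only [hub] at h1
      linarith [h1.2]
    · simp only [par] at h1
      linarith [h1.1]
  · simp only [Pt] at hz
    obtain ⟨a, b, hab, -, -, -, hor⟩ := dir_int h
    have hab' : (a : ℝ) < b := by exact_mod_cast hab
    have hop : Op (par a) (par b) (Pt w) := by
      rcases hor with ⟨e1, e2⟩ | ⟨e1, e2⟩
      · rw [e1, e2] at hz; exact hz
      · rw [e1, e2] at hz; exact hz.symm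
    obtain ⟨h2, h3, h4⟩ := chord_op hab' hop
    have h5 := mul_pos (sub_pos.mpr h2) (sub_pos.mpr h3)
    rcases w with _ | w
    · simp only [Pt, hub] at h4 h5
      nlinarith [sq_nonneg (((p * (3 * p + 1) : ℕ) : ℝ))]
    · simp only [Pt, par] at h4 h5
      linarith

theorem col_ne {n m p : ℕ} {e : Fin p → Lab n m} {e0 e1 : Lab n m} {u v : Vt p}
    (h : col e e0 e1 u v ≠ none) : dir e e0 e1 u v ≠ none ∨ dir e e0 e1 v u ≠ none := by
  by_contra hc
  push Not at hc
  apply h
  simp [col, hc.1, hc.2]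

theorem dir_anti {n m p : ℕ} (e : Fin p → Lab n m) (e0 e1 : Lab n m) (u v : Vt p) :
    dir e e0 e1 u v = none ∨ dir e e0 e1 v u = none := by
  rcases u with _ | ⟨k, _ | ⟨j, i⟩⟩ <;> rcases v with _ | ⟨k', _ | ⟨j', i'⟩⟩
  all_goals try simp [dir]
  tauto

theorem col_symm {n m p : ℕ} (e : Fin p → Lab n m) (e0 e1 : Lab n m) (u v : Vt p) :
    col e e0 e1 v u = Option.map (fl n m) (col e e0 e1 u v) := by
  unfold col
  rcases dir_anti e e0 e1 u v with h | h
  · rw [h]
    cases h2 : dir e e0 e1 v u with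
    | none => simp
    | some t => simp [fl_fl]
  · rw [h]
    cases h2 : dir e e0 e1 u v with
    | none => simp
    | some t => simp

theorem col_self {n m p : ℕ} (e : Fin p → Lab n m) (e0 e1 : Lab n m) (u : Vt p) :
    col e e0 e1 u u = none := by
  have : dir e e0 e1 u u = none := by
    rcases dir_anti e e0 e1 u u with h | h <;> exact h
  simp [col, this]

theorem col_of_dir {n m p : ℕ} {e : Fin p → Lab n m} {e0 e1 : Lab n m} {u v : Vt p} {t : Lab n m}
    (h : dir e e0 e1 u v = some t) : col e e0 e1 u v = some t := by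
  simp [col, h]

/-- The lower bound half of S07469. -/
theorem lower (n m : ℕ) (hp : 2 ≤ 2 * n + m) :
       (∃ (V : Type) (_ : Finite V) (c : V → V → Option (Fin n × Bool ⊕ Fin m)),
          (∀ u, c u u = none) ∧
          (∀ u v, c v u = Option.map
              (Sum.elim (fun a : Fin n × Bool => (Sum.inl (a.1, !a.2) : Fin n × Bool ⊕ Fin m))
                (fun j : Fin m => (Sum.inr j : Fin n × Bool ⊕ Fin m))) (c u v)) ∧
          (∃ p : V → ℝ × ℝ, Function.Injective p ∧
            ∃ γ : ∀ u v : V, Path (p u) (p v),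
              (∀ u v, c u v ≠ none → Function.Injective (γ u v)) ∧
              (∀ u v w, c u v ≠ none → ∀ t : unitInterval,
                  0 < (t : ℝ) → (t : ℝ) < 1 → γ u v t ≠ p w) ∧
              (∀ u v x y, c u v ≠ none → c x y ≠ none → ¬(x = u ∧ y = v) →
                  ¬(x = v ∧ y = u) → ∀ s t : unitInterval,
                  0 < (s : ℝ) → (s : ℝ) < 1 → γ u v s ≠ γ x y t)) ∧
          ∃ R : Finset V,
            (∀ (W : Type) (d : W → W → Option (Fin n × Bool ⊕ Fin m)),
              (∀ w, d w w = none) →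
              (∀ w x, d x w = Option.map
                  (Sum.elim (fun a : Fin n × Bool => (Sum.inl (a.1, !a.2) : Fin n × Bool ⊕ Fin m))
                    (fun j : Fin m => (Sum.inr j : Fin n × Bool ⊕ Fin m))) (d w x)) →
              ∀ f : V → W, (∀ u v t, c u v = some t → d (f u) (f v) = some t) →
                Set.InjOn f (R : Set V)) ∧
            R.card = 3 * (2 * n + m) ^ 2 + (2 * n + m) + 1) := by
  classical
  set p : ℕ := 2 * n + m with hpdef
  have hcard : Fintype.card (Lab n m) = p := by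
    simp [Lab, hpdef]; ring
  let e : Fin p ≃ Lab n m := (Fintype.equivFinOfCardEq hcard).symm
  let i0 : Fin p := ⟨0, by omega⟩
  let i1 : Fin p := ⟨1, by omega⟩
  have h01 : e i0 ≠ e i1 := fun h => by
    have := e.injective h
    simp [i0, i1] at this
  refine ⟨Vt p, inferInstance, col (fun i => e i) (e i0) (e i1), col_self _ _ _, ?_, ?_, ?_⟩
  · intro u v
    exact col_symm _ _ _ u v
  · refine ⟨Pt, Pt_inj, fun u v => seg (Pt u) (Pt v), ?_, ?_, ?_⟩
    · intro u v huv
      apply seg_inj
      intro h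
      apply huv
      rw [Pt_inj h]
      exact col_self _ _ _ _
    · intro u v w huv t h0 h1 h
      have hop : Op (Pt u) (Pt v) (Pt w) := ⟨t, h0, h1, by rw [← h]; rfl⟩
      rcases col_ne huv with h2 | h2
      · exact arc_pt h2 hop
      · exact arc_pt h2 hop.symm
    · intro u v x y huv hxy hne hne' s t h0 h1 h
      have hop : Op (Pt u) (Pt v) (seg (Pt u) (Pt v) s) := ⟨s, h0, h1, rfl⟩
      have hcl : Cl (Pt x) (Pt y) (seg (Pt u) (Pt v) s) := ⟨t, t.2.1, t.2.2, by rw [h]; rfl⟩
      rcases col_ne huv with h2 | h2 <;> rcases col_ne hxy with h3 | h3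
      · exact arc_arc h2 h3 hne hne' hop hcl
      · exact arc_arc h2 h3 (fun h => hne' ⟨h.2, h.1⟩) (fun h => hne ⟨h.2, h.1⟩) hop hcl.symm
      · exact arc_arc h2 h3 (fun h => hne' ⟨h.1, h.2⟩) (fun h => hne ⟨h.1, h.2⟩) hop.symm hcl
      · exact arc_arc h2 h3 (fun h => hne ⟨h.2, h.1⟩) (fun h => hne' ⟨h.2, h.1⟩) hop.symm hcl.symm
  · refine ⟨Finset.univ, ?_, ?_⟩
    · intro W d hd hsy f hf
      have hadj : ∀ {u v : Vt p} {t : Lab n m}, dir (fun i => e i) (e i0) (e i1) u v = some t →
          f u ≠ f v := by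
        intro u v t h heq
        have := hf u v t (col_of_dir h)
        rw [heq, hd] at this
        exact absurd this (by simp)
      have hsp : ∀ {w u v : Vt p} {s t : Lab n m},
          dir (fun i => e i) (e i0) (e i1) w u = some s →
          dir (fun i => e i) (e i0) (e i1) w v = some t → s ≠ t → f u ≠ f v := by
        intro w u v s t h h' hst heq
        have h1 := hf w u s (col_of_dir h)
        have h2 := hf w v t (col_of_dir h')
        rw [heq, h2] at h1
        exact hst (Option.some.inj h1).symm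
      have key : ∀ u v : Vt p, u ≠ v → f u ≠ f v := by
        intro u v huv
        rcases u with _ | ⟨k, o⟩ <;> rcases v with _ | ⟨k', o'⟩
        · exact absurd rfl huv
        · exact hadj (t := e k') rfl
        · exact (hadj (t := e k) rfl).symm
        · by_cases hk : k = k'
          · subst hk
            rcases o with _ | ⟨j, i⟩ <;> rcases o' with _ | ⟨j', i'⟩
            · exact absurd rfl huv
            · exact hadj (t := e j') (by simp [dir])
            · exact (hadj (t := e j) (by simp [dir])).symm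
            · by_cases hj : j = j'
              · subst hj
                have hii : i ≠ i' := fun h => huv (by rw [h])
                by_cases hi : i = 1
                · subst hi
                  cases hd1 : dir (fun i => e i) (e i0) (e i1) (some (k, some (j, 1)))
                      (some (k, some (j, i'))) with
                  | none =>
                    exfalso
                    simp [dir, Ne.symm hii] at hd1
                    split_ifs at hd1
                  | some t => exact hadj hd1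
                · by_cases hi' : i' = 1
                  · subst hi'
                    cases hd1 : dir (fun i => e i) (e i0) (e i1) (some (k, some (j, 1)))
                        (some (k, some (j, i))) with
                    | none =>
                      exfalso
                      simp [dir, hi] at hd1
                      split_ifs at hd1
                    | some t => exact (hadj hd1).symm
                  · -- i, i' in {0, 2}
                    have h02 : (i = 0 ∧ i' = 2) ∨ (i = 2 ∧ i' = 0) := by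
                      revert hii hi hi'
                      fin_cases i <;> fin_cases i' <;> simp
                    rcases h02 with ⟨rfl, rfl⟩ | ⟨rfl, rfl⟩
                    · exact hsp (w := some (k, some (j, 1))) (s := e i0) (t := e i1)
                        (by simp [dir]) (by simp [dir]) h01
                    · exact hsp (w := some (k, some (j, 1))) (s := e i1) (t := e i0)
                        (by simp [dir]) (by simp [dir]) h01.symm
              · exact hsp (w := some (k, none)) (s := e j) (t := e j')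
                  (by simp [dir]) (by simp [dir]) (fun h => hj (e.injective h))
          · exact hsp (w := none) (s := e k) (t := e k') rfl rfl (fun h => hk (e.injective h))
      intro u _ v _ huv
      by_contra hne
      exact key u v hne huv
    · rw [Finset.card_univ]
      simp only [Vt, Fintype.card_option, Fintype.card_prod, Fintype.card_fin]
      ring

/-- The lower bound half of S07469, for all (n, m) other than (0, 1). -/
theorem lower_all (n m : ℕ) (hnm : (n, m) ≠ (0, 1)) :
       (∃ (V : Type) (_ : Finite V) (c : V → V → Option (Fin n × Bool ⊕ Fin m)),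
          (∀ u, c u u = none) ∧
          (∀ u v, c v u = Option.map
              (Sum.elim (fun a : Fin n × Bool => (Sum.inl (a.1, !a.2) : Fin n × Bool ⊕ Fin m))
                (fun j : Fin m => (Sum.inr j : Fin n × Bool ⊕ Fin m))) (c u v)) ∧
          (∃ p : V → ℝ × ℝ, Function.Injective p ∧
            ∃ γ : ∀ u v : V, Path (p u) (p v),
              (∀ u v, c u v ≠ none → Function.Injective (γ u v)) ∧
              (∀ u v w, c u v ≠ none → ∀ t : unitInterval,
                  0 < (t : ℝ) → (t : ℝ) < 1 → γ u v t ≠ p w) ∧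
              (∀ u v x y, c u v ≠ none → c x y ≠ none → ¬(x = u ∧ y = v) →
                  ¬(x = v ∧ y = u) → ∀ s t : unitInterval,
                  0 < (s : ℝ) → (s : ℝ) < 1 → γ u v s ≠ γ x y t)) ∧
          ∃ R : Finset V,
            (∀ (W : Type) (d : W → W → Option (Fin n × Bool ⊕ Fin m)),
              (∀ w, d w w = none) →
              (∀ w x, d x w = Option.map
                  (Sum.elim (fun a : Fin n × Bool => (Sum.inl (a.1, !a.2) : Fin n × Bool ⊕ Fin m))
                    (fun j : Fin m => (Sum.inr j : Fin n × Bool ⊕ Fin m))) (d w x)) →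
              ∀ f : V → W, (∀ u v t, c u v = some t → d (f u) (f v) = some t) →
                Set.InjOn f (R : Set V)) ∧
            R.card = 3 * (2 * n + m) ^ 2 + (2 * n + m) + 1) := by
  by_cases hp : 2 ≤ 2 * n + m
  · exact lower n m hp
  · have hn : n = 0 := by omega
    have hm : m = 0 := by
      subst hn
      have : m ≠ 1 := fun h => hnm (by rw [h])
      omega
    subst hn hm
    refine ⟨Unit, inferInstance, fun _ _ => none, fun _ => rfl, fun _ _ => rfl,
      ⟨fun _ => (0, 0), fun _ _ _ => rfl, fun _ _ => Path.refl _, ?_, ?_, ?_⟩,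
      Finset.univ, ?_, by simp⟩
    · intro u v h; exact absurd rfl h
    · intro u v w h; exact absurd rfl h
    · intro u v x y h; exact absurd rfl h
    · intro W d _ _ f _ u _ v _ _
      rfl

end Pool.RCQ.Low
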